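import Mathlib
import Pool.Agent.X215.Transl.Rel

/-!
# A Borel set of reals with uncountably many but not `ℵ₂` many pairwise disjoint translates

In ZFC there is a Borel set `B ⊆ ℝ` with uncountably many pairwise disjoint translates such that
every family of pairwise disjoint translates of `B` has at most `ℵ₁` members.

The translates by `x` and `y` are disjoint if and only if `x - y ∉ B - B`. Let `θ : 2^ω → ℝ` map a
point to the real number with digits `3` (in base 4) at the positions in a sparse set of positions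
which code its initial segments, and let `A` be the set of all `θ x - θ y` such that `x ≠ y` and one
of `x`, `y` is a column of the other. We find a Borel set `B` with `B - B = ℝ \ A`.
-/

set_option autoImplicit false

namespace Pool.Agent.Results.MP_6a38e0_lc.DisjointTranslates

open Pool.Agent.X215.Transl Set Filter Topology Cardinal MeasureTheory

/-- extension by zero -/
noncomputable def ext (f : ℕ → ℕ) (x : ℕ → ℤ) : ℕ → ℤ := Function.extend f x 0

theorem ext_apply {f : ℕ → ℕ} (hf : Function.Injective f) (x : ℕ → ℤ) (n : ℕ) :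
    ext f x (f n) = x n := hf.extend_apply _ _ _

theorem ext_apply' {f : ℕ → ℕ} (x : ℕ → ℤ) {j : ℕ} (h : ∀ n, f n ≠ j) : ext f x j = 0 :=
  Function.extend_apply' _ _ _ (by rintro ⟨n, hn⟩; exact h n hn)

theorem abs_ext {f : ℕ → ℕ} (hf : Function.Injective f) {x : ℕ → ℤ} {B : ℤ} (hB : 0 ≤ B)
    (hx : ∀ n, |x n| ≤ B) (j : ℕ) : |ext f x j| ≤ B := by
  by_cases h : ∃ n, f n = j
  · obtain ⟨n, rfl⟩ := h
    rw [ext_apply hf]
    exact hx n
  · push Not at h
    rw [ext_apply' x h, abs_zero]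
    exact hB

/-! ### Expansions supported on the special positions -/

/-- The numbers with an expansion supported on the special positions, the digits at the positions of
the third kind belonging to `D`. -/
def G (D : Set ℤ) : Set ℝ :=
  {r | ∃ (N B : ℤ) (e : ℕ → ℤ), (∀ j, |e j| ≤ B) ∧ Sp e ∧ (∀ n, e (m n) ∈ D) ∧ r = N + V e}

theorem G_disj {D D' : Set ℤ} {r : ℝ} (h : r ∈ G D) (h' : r ∈ G D') : ∃ d ∈ D, d ∈ D' := by
  obtain ⟨N, B, e, he, hs, hD, hr⟩ := h
  obtain ⟨N', B', e', he', hs', hD', hr'⟩ := h'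
  have h1 : V (fun j => e j - e' j) = ((N' - N : ℤ) : ℝ) := by
    rw [V_sub he he']
    push_cast
    linarith
  obtain ⟨n₀, hn⟩ := unique (K := B + B') (fun j => (abs_sub _ _).trans (add_le_add (he j) (he' j)))
    (fun j a b c => by rw [hs j a b c, hs' j a b c, sub_zero]) h1
  have h2 := (hn n₀ le_rfl).1
  refine ⟨e (m n₀), hD n₀, ?_⟩
  rw [sub_eq_zero.1 h2]
  exact hD' n₀

theorem G_sub {D D' D'' : Set ℤ} {r r' : ℝ} (h : r ∈ G D) (h' : r' ∈ G D')
    (hD : ∀ d ∈ D, ∀ d' ∈ D', d - d' ∈ D'') : r - r' ∈ G D'' := by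
  obtain ⟨N, B, e, he, hs, h1, hr⟩ := h
  obtain ⟨N', B', e', he', hs', h1', hr'⟩ := h'
  refine ⟨N - N', B + B', fun j => e j - e' j,
    fun j => (abs_sub _ _).trans (add_le_add (he j) (he' j)),
    fun j a b c => by simp only [hs j a b c, hs' j a b c, sub_zero], fun n => hD _ (h1 n) _ (h1' n), ?_⟩
  rw [V_sub he he', hr, hr']
  push_cast
  ring

theorem G_add {D D' D'' : Set ℤ} {r r' : ℝ} (h : r ∈ G D) (h' : r' ∈ G D')
    (hD : ∀ d ∈ D, ∀ d' ∈ D', d + d' ∈ D'') : r + r' ∈ G D'' := by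
  obtain ⟨N, B, e, he, hs, h1, hr⟩ := h
  obtain ⟨N', B', e', he', hs', h1', hr'⟩ := h'
  refine ⟨N + N', B + B', fun j => e j + e' j,
    fun j => (abs_add_le _ _).trans (add_le_add (he j) (he' j)),
    fun j a b c => by simp only [hs j a b c, hs' j a b c, add_zero], fun n => hD _ (h1 n) _ (h1' n), ?_⟩
  rw [V_add he he', hr, hr']
  push_cast
  ring

theorem zero_mem_G : (0 : ℝ) ∈ G {0} :=
  ⟨0, 0, fun _ => 0, fun j => by simp, fun j _ _ _ => rfl, fun n => rfl, by simp [V]⟩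

theorem measurable_G (D : Set ℤ) : MeasurableSet (G D) := by
  let P : ℕ → ℕ → Set ℤ := fun B j => {v | |v| ≤ (B : ℤ) ∧
    ((∀ n, s n ≠ j) → (∀ n, q n ≠ j) → (∀ n, m n ≠ j) → v = 0) ∧ ∀ n, m n = j → v ∈ D}
  have h1 : G D = ⋃ N : ℤ, ⋃ B : ℕ, (fun x => (N : ℝ) + x) '' (V '' {e | ∀ j, e j ∈ P B j}) := by
    ext r
    simp only [mem_iUnion]
    constructor
    · rintro ⟨N, B, e, he, hs, h1, hr⟩
      refine ⟨N, B.toNat, V e, ⟨e, fun j => ⟨(he j).trans (Int.self_le_toNat B), hs j, ?_⟩, rfl⟩,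
        hr.symm⟩
      rintro n rfl
      exact h1 n
    · rintro ⟨N, B, _, ⟨e, he, rfl⟩, rfl⟩
      exact ⟨N, B, e, fun j => (he j).1, fun j => (he j).2.1, fun n => (he (m n)).2.2 n rfl, rfl⟩
  rw [h1]
  refine MeasurableSet.iUnion fun N => MeasurableSet.iUnion fun B => ?_
  have h2 : IsCompact (V '' {e | ∀ j, e j ∈ P B j}) := isCompact_box (K := B) fun j v hv => hv.1
  exact (h2.image (continuous_const.add continuous_id)).isClosed.measurableSet

/-! ### The set `A` -/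

/-- the coding -/
noncomputable def θ (x : K) : ℝ := V (ext s fun n => 3 * φ x n)

theorem abs_three_φ (x : K) (n : ℕ) : |3 * φ x n| ≤ 3 := by
  rcases φ_cases x n with h | h <;> rw [h] <;> norm_num

theorem abs_θ (x : K) (j : ℕ) : |ext s (fun n => 3 * φ x n) j| ≤ 3 :=
  abs_ext s_inj (by norm_num) (abs_three_φ x) j

theorem θ_mem (x : K) : θ x ∈ G {0} :=
  ⟨0, 3, _, abs_θ x, fun j h _ _ => ext_apply' _ h,
    fun n => ext_apply' _ fun k => s_ne_m k n, by simp [θ]⟩

theorem continuous_θ : Continuous θ := by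
  refine continuous_V (K := 3) (fun j => ?_) fun x j => abs_θ x j
  by_cases h : ∃ n, s n = j
  · obtain ⟨n, rfl⟩ := h
    have h1 : (fun x => ext s (fun n => 3 * φ x n) (s n)) = fun x => 3 * φ x n := by
      funext x
      exact ext_apply s_inj _ n
    rw [h1]
    exact continuous_const.mul (continuous_φ n)
  · push Not at h
    have h1 : (fun x => ext s (fun n => 3 * φ x n) j) = fun _ => (0 : ℤ) := by
      funext x
      exact ext_apply' _ h
    rw [h1]
    exact continuous_const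

/-- the set of the codes of the pairs in the relation -/
def A : Set ℝ := {r | ∃ x y : K, x ≠ y ∧ R x y ∧ r = θ x - θ y}

theorem A_neg {a : ℝ} (h : a ∈ A) : -a ∈ A := by
  obtain ⟨x, y, hxy, hR, rfl⟩ := h
  exact ⟨y, x, hxy.symm, R_symm hR, by ring⟩

theorem A_sub : A ⊆ G {0} := by
  rintro _ ⟨x, y, -, -, rfl⟩
  exact G_sub (θ_mem x) (θ_mem y) (by simp)

theorem V_θ {x y : K} {e : ℕ → ℤ} {B : ℤ} (he : ∀ j, |e j| ≤ B) :
    V (fun j => e j - (ext s (fun n => 3 * φ x n) j - ext s (fun n => 3 * φ y n) j)) =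
      V e - (θ x - θ y) := by
  have h2 : ∀ j, |ext s (fun n => 3 * φ x n) j - ext s (fun n => 3 * φ y n) j| ≤ 3 + 3 :=
    fun j => (abs_sub _ _).trans (add_le_add (abs_θ x j) (abs_θ y j))
  rw [V_sub (e' := fun j => ext s (fun n => 3 * φ x n) j - ext s (fun n => 3 * φ y n) j) he h2,
    V_sub (abs_θ x) (abs_θ y)]
  rfl

theorem share_of {x y x' y' u v : K} (h : θ x - θ y - (θ x' - θ y') = θ u - θ v) :
    ∀ᶠ n in atTop, φ x n - φ y n - (φ x' n - φ y' n) = φ u n - φ v n := by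
  have h1 : ∀ (x y : K) (j : ℕ),
      |ext s (fun n => 3 * φ x n) j - ext s (fun n => 3 * φ y n) j| ≤ 3 + 3 :=
    fun x y j => (abs_sub _ _).trans (add_le_add (abs_θ x j) (abs_θ y j))
  have h2 : ∀ j, |(ext s (fun n => 3 * φ x n) j - ext s (fun n => 3 * φ y n) j) -
      (ext s (fun n => 3 * φ x' n) j - ext s (fun n => 3 * φ y' n) j)| ≤ (3 + 3) + (3 + 3) :=
    fun j => (abs_sub _ _).trans (add_le_add (h1 x y j) (h1 x' y' j))
  have h3 : V (fun j => (ext s (fun n => 3 * φ x n) j - ext s (fun n => 3 * φ y n) j) -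
      (ext s (fun n => 3 * φ x' n) j - ext s (fun n => 3 * φ y' n) j)) =
      (θ x - θ y) - (θ x' - θ y') := by
    rw [V_θ (h1 x y), V_sub (abs_θ x) (abs_θ y)]
    rfl
  have h4 := V_θ (x := u) (y := v) h2
  rw [h3, h, sub_self] at h4
  have h5 : ∀ j, |((ext s (fun n => 3 * φ x n) j - ext s (fun n => 3 * φ y n) j) -
      (ext s (fun n => 3 * φ x' n) j - ext s (fun n => 3 * φ y' n) j)) -
      (ext s (fun n => 3 * φ u n) j - ext s (fun n => 3 * φ v n) j)| ≤ ((3 + 3) + (3 + 3)) + (3 + 3) :=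
    fun j => (abs_sub _ _).trans (add_le_add (h2 j) (h1 u v j))
  obtain ⟨n₀, hn⟩ := unique (N := 0) h5 (fun j a _ _ => by
    simp only [ext_apply' _ a, sub_zero]) (by rw [h4]; simp)
  filter_upwards [eventually_ge_atTop n₀] with n hn'
  have h6 := (hn n hn').2
  simp only [ext_apply s_inj, ext_apply' _ fun k => s_ne_q k n] at h6
  omega

theorem zero_notMem : (0 : ℝ) ∉ A := by
  rintro ⟨x, y, hxy, -, h⟩
  refine hxy (two ?_)
  have h1 : θ x - θ y - (θ y - θ y) = θ y - θ y := by linarith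
  filter_upwards [share_of h1] with n hn
  linarith

theorem measurable_A : MeasurableSet A := by
  have h1 : A = (⋃ n : ℕ, ⋃ k : ℕ, (fun y => θ (col n y) - θ y) '' {y : K | col n y k ≠ y k}) ∪
      ⋃ n : ℕ, ⋃ k : ℕ, (fun y => θ y - θ (col n y)) '' {y : K | col n y k ≠ y k} := by
    ext r
    simp only [mem_union, mem_iUnion]
    constructor
    · rintro ⟨x, y, hxy, ⟨n, rfl⟩ | ⟨n, rfl⟩, rfl⟩
      · obtain ⟨k, hk⟩ := Function.ne_iff.1 hxy
        exact Or.inl ⟨n, k, y, hk, rfl⟩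
      · obtain ⟨k, hk⟩ := Function.ne_iff.1 hxy
        exact Or.inr ⟨n, k, x, hk.symm, rfl⟩
    · rintro (⟨n, k, y, hk, rfl⟩ | ⟨n, k, y, hk, rfl⟩)
      · exact ⟨col n y, y, fun h => hk (by rw [h]), Or.inl ⟨n, rfl⟩, rfl⟩
      · exact ⟨y, col n y, fun h => hk (by rw [← h]), Or.inr ⟨n, rfl⟩, rfl⟩
  have h2 : ∀ n k : ℕ, IsCompact {y : K | col n y k ≠ y k} := by
    intro n k
    refine IsClosed.isCompact ?_
    have h3 : Continuous fun y : K => (col n y k, y k) :=
      ((continuous_apply k).comp (continuous_col n)).prodMk (continuous_apply k)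
    exact (isClosed_discrete {p : Bool × Bool | p.1 ≠ p.2}).preimage h3
  rw [h1]
  refine MeasurableSet.union ?_ ?_
  · refine MeasurableSet.iUnion fun n => MeasurableSet.iUnion fun k => ?_
    exact ((h2 n k).image ((continuous_θ.comp (continuous_col n)).sub
      continuous_θ)).isClosed.measurableSet
  · refine MeasurableSet.iUnion fun n => MeasurableSet.iUnion fun k => ?_
    exact ((h2 n k).image (continuous_θ.sub
      (continuous_θ.comp (continuous_col n)))).isClosed.measurableSet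

/-! ### The first part -/

/-- an injection of the reals into the Cantor space -/
noncomputable def g : ℝ → K := Classical.choose
  (MeasurableSpace.measurable_injection_nat_bool_of_countablySeparated ℝ)

theorem measurable_g : Measurable g := (Classical.choose_spec
  (MeasurableSpace.measurable_injection_nat_bool_of_countablySeparated ℝ)).1

theorem injective_g : Function.Injective g := (Classical.choose_spec
  (MeasurableSpace.measurable_injection_nat_bool_of_countablySeparated ℝ)).2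

/-- the digits -/
def ξ (b : K) (n : ℕ) : ℤ := if b (Nat.unpair n).1 then 2 else 1

theorem ξ_mem (b : K) (n : ℕ) : ξ b n ∈ ({1, 2} : Set ℤ) := by
  unfold ξ
  split_ifs
  · exact Or.inr rfl
  · exact Or.inl rfl

theorem abs_ξ (b : K) (n : ℕ) : |ξ b n| ≤ 2 := by
  rcases ξ_mem b n with h | h <;> rw [h] <;> norm_num

/-- the markers -/
noncomputable def f (z : ℝ) : ℝ := V (ext m (ξ (g z)))

theorem measurable_f : Measurable f := by
  have h1 : Continuous fun b : K => V (ext m (ξ b)) := by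
    refine continuous_V (K := 2) (fun j => ?_) fun b j => abs_ext m_inj (by norm_num) (abs_ξ b) j
    by_cases h : ∃ n, m n = j
    · obtain ⟨n, rfl⟩ := h
      have h1 : (fun b => ext m (ξ b) (m n)) = fun b => ξ b n := by
        funext b
        exact ext_apply m_inj _ n
      rw [h1]
      have h2 : Continuous fun c : Bool => (if c then 2 else 1 : ℤ) := continuous_of_discreteTopology
      exact h2.comp (continuous_apply _)
    · push Not at h
      have h1 : (fun b => ext m (ξ b) j) = fun _ => (0 : ℤ) := by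
        funext b
        exact ext_apply' _ h
      rw [h1]
      exact continuous_const
  exact h1.measurable.comp measurable_g

theorem f_mem (z : ℝ) : f z ∈ G {1, 2} :=
  ⟨0, 2, _, abs_ext m_inj (by norm_num) (abs_ξ (g z)), fun j _ _ h => ext_apply' _ h,
    fun n => by rw [ext_apply m_inj]; exact ξ_mem _ n, by simp [f]⟩

theorem f_inj {z w : ℝ} (h : f z - f w ∈ G {0}) : z = w := by
  obtain ⟨N, B, e, he, hs, h0, hr⟩ := h
  have hz := abs_ext m_inj (by norm_num : (0 : ℤ) ≤ 2) (abs_ξ (g z))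
  have hw := abs_ext m_inj (by norm_num : (0 : ℤ) ≤ 2) (abs_ξ (g w))
  have hzw : ∀ j, |ext m (ξ (g z)) j - ext m (ξ (g w)) j| ≤ 2 + 2 := fun j =>
    (abs_sub _ _).trans (add_le_add (hz j) (hw j))
  have h1 : V (fun j => (ext m (ξ (g z)) j - ext m (ξ (g w)) j) - e j) = (N : ℝ) := by
    rw [V_sub (e := fun j => ext m (ξ (g z)) j - ext m (ξ (g w)) j) hzw he, V_sub hz hw]
    unfold f at hr
    linarith
  obtain ⟨n₀, hn⟩ := unique (K := (2 + 2) + B)
    (fun j => (abs_sub _ _).trans (add_le_add (hzw j) (he j)))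
    (fun j a b c => by simp only [ext_apply' _ c, hs j a b c, sub_zero]) h1
  refine injective_g (funext fun i => ?_)
  have h2 := (hn (Nat.pair i n₀) (Nat.right_le_pair i n₀)).1
  have h3 : e (m (Nat.pair i n₀)) = 0 := h0 _
  simp only [ext_apply m_inj, h3, sub_zero] at h2
  unfold ξ at h2
  rw [Nat.unpair_pair] at h2
  revert h2
  simp only
  cases g z i <;> cases g w i <;> simp

/-- the first part of the set -/
def B₁ : Set ℝ := {r | ∃ z ∈ G {0}, z ∉ A ∧ (r = f z ∨ r = f z + z)}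

theorem measurable_B₁ : MeasurableSet B₁ := by
  have h1 : B₁ = f '' (G {0} \ A) ∪ (fun z => f z + z) '' (G {0} \ A) := by
    ext r
    constructor
    · rintro ⟨z, hz, hzA, rfl | rfl⟩
      · exact Or.inl ⟨z, ⟨hz, hzA⟩, rfl⟩
      · exact Or.inr ⟨z, ⟨hz, hzA⟩, rfl⟩
    · rintro (⟨z, ⟨hz, hzA⟩, rfl⟩ | ⟨z, ⟨hz, hzA⟩, rfl⟩)
      · exact ⟨z, hz, hzA, Or.inl rfl⟩
      · exact ⟨z, hz, hzA, Or.inr rfl⟩
  have h2 : MeasurableSet (G {0} \ A) := (measurable_G _).diff measurable_A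
  rw [h1]
  refine MeasurableSet.union ?_ ?_
  · refine h2.image_of_measurable_injOn measurable_f ?_
    intro z _ w _ h
    refine f_inj ?_
    rw [h, sub_self]
    exact zero_mem_G
  · refine h2.image_of_measurable_injOn (measurable_f.add measurable_id) ?_
    intro z hz w hw h
    refine f_inj ?_
    have h3 : f z - f w = w - z := by
      have h4 : f z + z = f w + w := h
      linarith
    rw [h3]
    exact G_sub hw.1 hz.1 (by simp)

/-! ### The second part -/

/-- the digits in the second part -/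
def P₁ (t : ℤ) (j : ℕ) : Set ℤ := {v | (∀ n, s n = j → v = 0 ∨ v = 1) ∧
  (∀ n, q n = j → 0 ≤ v ∧ v ≤ 3) ∧ (∀ n, m n = j → v = t) ∧
  ((∀ n, s n ≠ j) → (∀ n, q n ≠ j) → (∀ n, m n ≠ j) → v = 0)}

/-- the digits in the third part -/
def P₂ (t : ℤ) (j : ℕ) : Set ℤ := {v | (∀ n, s n = j → v = 0 ∨ v = -2) ∧
  (∀ n, q n = j → v = 0) ∧ (∀ n, m n = j → t - 3 ≤ v ∧ v ≤ t) ∧
  ((∀ n, s n ≠ j) → (∀ n, q n ≠ j) → (∀ n, m n ≠ j) → -3 ≤ v ∧ v ≤ 0)}

theorem abs_P₁ {t : ℤ} (ht : t = 0 ∨ t = 3) {j : ℕ} {v : ℤ} (hv : v ∈ P₁ t j) : |v| ≤ 3 := by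
  obtain ⟨h1, h2, h3, h4⟩ := hv
  rw [abs_le]
  by_cases hs : ∃ n, s n = j
  · obtain ⟨n, hn⟩ := hs
    rcases h1 n hn with h | h <;> omega
  by_cases hq : ∃ n, q n = j
  · obtain ⟨n, hn⟩ := hq
    have := h2 n hn
    omega
  by_cases hm : ∃ n, m n = j
  · obtain ⟨n, hn⟩ := hm
    have := h3 n hn
    omega
  push Not at hs hq hm
  have := h4 hs hq hm
  omega

theorem abs_P₂ {t : ℤ} (ht : t = 0 ∨ t = 3) {j : ℕ} {v : ℤ} (hv : v ∈ P₂ t j) : |v| ≤ 3 := by
  obtain ⟨h1, h2, h3, h4⟩ := hv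
  rw [abs_le]
  by_cases hs : ∃ n, s n = j
  · obtain ⟨n, hn⟩ := hs
    rcases h1 n hn with h | h <;> omega
  by_cases hq : ∃ n, q n = j
  · obtain ⟨n, hn⟩ := hq
    have := h2 n hn
    omega
  by_cases hm : ∃ n, m n = j
  · obtain ⟨n, hn⟩ := hm
    have := h3 n hn
    omega
  push Not at hs hq hm
  have := h4 hs hq hm
  omega

/-- the second part of the set -/
def C₁ (t : ℤ) : Set ℝ := V '' {e | ∀ j, e j ∈ P₁ t j}

/-- the third part of the set, before a small set is removed -/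
def C₂ (t : ℤ) : Set ℝ := {r | ∃ (N : ℤ) (e : ℕ → ℤ), (∀ j, e j ∈ P₂ t j) ∧ r = N + V e}

theorem measurable_C₁ {t : ℤ} (ht : t = 0 ∨ t = 3) : MeasurableSet (C₁ t) :=
  (isCompact_box (K := 3) fun _ _ hv => abs_P₁ ht hv).isClosed.measurableSet

theorem measurable_C₂ {t : ℤ} (ht : t = 0 ∨ t = 3) : MeasurableSet (C₂ t) := by
  have h1 : C₂ t = ⋃ N : ℤ, (fun x => (N : ℝ) + x) '' (V '' {e | ∀ j, e j ∈ P₂ t j}) := by
    ext r
    simp only [mem_iUnion]
    constructor
    · rintro ⟨N, e, he, rfl⟩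
      exact ⟨N, V e, ⟨e, he, rfl⟩, rfl⟩
    · rintro ⟨N, _, ⟨e, he, rfl⟩, rfl⟩
      exact ⟨N, e, he, rfl⟩
  rw [h1]
  refine MeasurableSet.iUnion fun N => ?_
  have h2 : IsCompact (V '' {e | ∀ j, e j ∈ P₂ t j}) :=
    isCompact_box (K := 3) fun _ _ hv => abs_P₂ ht hv
  exact (h2.image (continuous_const.add continuous_id)).isClosed.measurableSet

theorem C₁_sub {t : ℤ} (ht : t = 0 ∨ t = 3) : C₁ t ⊆ G {t} := by
  rintro _ ⟨e, he, rfl⟩
  exact ⟨0, 3, e, fun j => abs_P₁ ht (he j), fun j a b c => (he j).2.2.2 a b c,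
    fun n => (he (m n)).2.2.1 n rfl, by simp⟩

/-- the small set -/
def Y : Set ℝ := (G {0} ∪ G {3}) ∪ G {1, 2}

/-- the set -/
def B : Set ℝ := B₁ ∪ ((C₁ 0 ∪ C₁ 3) ∪ ((C₂ 0 ∪ C₂ 3) \ Y))

theorem measurable_B : MeasurableSet B :=
  measurable_B₁.union (((measurable_C₁ (Or.inl rfl)).union (measurable_C₁ (Or.inr rfl))).union
    (((measurable_C₂ (Or.inl rfl)).union (measurable_C₂ (Or.inr rfl))).diff
      (((measurable_G _).union (measurable_G _)).union (measurable_G _))))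

theorem mem_C₁ {r : ℝ} (h : r ∈ C₁ 0 ∪ C₁ 3) : ∃ t, (t = 0 ∨ t = 3) ∧ r ∈ C₁ t := by
  rcases h with h | h
  · exact ⟨0, Or.inl rfl, h⟩
  · exact ⟨3, Or.inr rfl, h⟩

theorem mem_C₂ {r : ℝ} (h : r ∈ C₂ 0 ∪ C₂ 3) : ∃ t, (t = 0 ∨ t = 3) ∧ r ∈ C₂ t := by
  rcases h with h | h
  · exact ⟨0, Or.inl rfl, h⟩
  · exact ⟨3, Or.inr rfl, h⟩

theorem G_Y {t : ℤ} (ht : t = 0 ∨ t = 3) : G {t} ⊆ Y := by
  rcases ht with rfl | rfl
  · exact fun r h => Or.inl (Or.inl h)
  · exact fun r h => Or.inl (Or.inr h)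

/-! ### The differences -/

theorem add_G {D : Set ℤ} {r a : ℝ} (h : r ∈ G D) (ha : a ∈ G {0}) : r + a ∈ G D :=
  G_add h ha (by
    rintro d hd _ rfl
    rwa [add_zero])

theorem B₁_mem {r : ℝ} (h : r ∈ B₁) : r ∈ G {1, 2} := by
  obtain ⟨z, hz, -, rfl | rfl⟩ := h
  · exact f_mem z
  · exact add_G (f_mem z) hz

theorem case11 {b b' : ℝ} (hb : b ∈ B₁) (hb' : b' ∈ B₁) : b - b' ∉ A := by
  obtain ⟨z, hz, hzA, hbz⟩ := hb
  obtain ⟨w, hw, hwA, hbw⟩ := hb'
  intro ha
  have hz' : b - f z ∈ G {0} ∧ (b - f z = 0 ∨ b - f z = z) := by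
    rcases hbz with rfl | rfl
    · rw [sub_self]; exact ⟨zero_mem_G, Or.inl rfl⟩
    · rw [add_sub_cancel_left]; exact ⟨hz, Or.inr rfl⟩
  have hw' : b' - f w ∈ G {0} ∧ (b' - f w = 0 ∨ b' - f w = w) := by
    rcases hbw with rfl | rfl
    · rw [sub_self]; exact ⟨zero_mem_G, Or.inl rfl⟩
    · rw [add_sub_cancel_left]; exact ⟨hw, Or.inr rfl⟩
  have h1 : f z - f w ∈ G {0} := by
    have h2 : f z - f w = (b - b') - (b - f z) + (b' - f w) := by ring
    rw [h2]
    exact add_G (G_sub (A_sub ha) hz'.1 (by simp)) hw'.1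
  have hzw := f_inj h1
  subst hzw
  have h3 : b - b' = (b - f z) - (b' - f z) := by ring
  rw [h3] at ha
  rcases hz'.2 with h4 | h4 <;> rcases hw'.2 with h5 | h5 <;> rw [h4, h5] at ha
  · rw [sub_zero] at ha
    exact zero_notMem ha
  · have h6 := A_neg ha
    rw [zero_sub, neg_neg] at h6
    exact hzA h6
  · rw [sub_zero] at ha
    exact hzA ha
  · rw [sub_self] at ha
    exact zero_notMem ha

theorem case12 {b b' : ℝ} (hb : b ∈ B₁) (hb' : b' ∈ C₁ 0 ∪ C₁ 3) : b - b' ∉ A := by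
  intro ha
  obtain ⟨t, ht, h1⟩ := mem_C₁ hb'
  have h2 : b ∈ G {t} := by
    have h3 := add_G (C₁_sub ht h1) (A_sub ha)
    rwa [add_sub_cancel] at h3
  obtain ⟨d, hd, hd'⟩ := G_disj (B₁_mem hb) h2
  rcases ht with rfl | rfl
  · rcases hd with rfl | rfl
    · exact absurd hd' (by norm_num)
    · exact absurd hd' (by norm_num)
  · rcases hd with rfl | rfl
    · exact absurd hd' (by norm_num)
    · exact absurd hd' (by norm_num)

theorem case13 {b b' : ℝ} (hb : b ∈ B₁) (hb' : b' ∉ Y) : b - b' ∉ A := by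
  intro ha
  apply hb'
  have h1 := add_G (B₁_mem hb) (A_sub (A_neg ha))
  have h2 : b + -(b - b') = b' := by ring
  rw [h2] at h1
  exact Or.inr h1

theorem case23 {b b' : ℝ} (hb : b ∈ C₁ 0 ∪ C₁ 3) (hb' : b' ∉ Y) : b - b' ∉ A := by
  intro ha
  apply hb'
  obtain ⟨t, ht, h3⟩ := mem_C₁ hb
  have h1 := add_G (C₁_sub ht h3) (A_sub (A_neg ha))
  have h2 : b + -(b - b') = b' := by ring
  rw [h2] at h1
  exact G_Y ht h1

theorem case22 {b b' : ℝ} (hb : b ∈ C₁ 0 ∪ C₁ 3) (hb' : b' ∈ C₁ 0 ∪ C₁ 3) : b - b' ∉ A := by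
  rintro ⟨x, y, hxy, -, h⟩
  obtain ⟨t, ht, e, he, rfl⟩ := mem_C₁ hb
  obtain ⟨t', ht', e', he', rfl⟩ := mem_C₁ hb'
  have b1 : ∀ j, |e j| ≤ 3 := fun j => abs_P₁ ht (he j)
  have b2 : ∀ j, |e' j| ≤ 3 := fun j => abs_P₁ ht' (he' j)
  have b3 : ∀ j, |e j - e' j| ≤ 3 + 3 := fun j => (abs_sub _ _).trans (add_le_add (b1 j) (b2 j))
  have h1 := V_θ (x := x) (y := y) b3
  rw [V_sub b1 b2, h, sub_self] at h1
  obtain ⟨n₀, hn⟩ := unique (K := (3 + 3) + (3 + 3)) (N := 0) (fun j => (abs_sub _ _).trans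
    (add_le_add (b3 j) ((abs_sub _ _).trans (add_le_add (abs_θ x j) (abs_θ y j)))))
    (fun j a b c => by
      simp only [ext_apply' _ a, (he j).2.2.2 a b c, (he' j).2.2.2 a b c, sub_zero])
    (by rw [h1]; simp)
  refine hxy (two ?_)
  filter_upwards [eventually_ge_atTop n₀] with n hn'
  have h6 := (hn n hn').2
  simp only [ext_apply s_inj, ext_apply' _ fun k => s_ne_q k n] at h6
  have h7 := (he (s n)).1 n rfl
  have h8 := (he' (s n)).1 n rfl
  have h9 := (he (q n)).2.1 n rfl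
  have h10 := (he' (q n)).2.1 n rfl
  rcases φ_cases x n with hx | hx <;> rcases φ_cases y n with hy | hy <;> rw [hx, hy] at h6 ⊢ <;>
    omega

theorem case33 {b b' : ℝ} (hb : b ∈ C₂ 0 ∪ C₂ 3) (hb' : b' ∈ C₂ 0 ∪ C₂ 3) : b - b' ∉ A := by
  rintro ⟨x, y, hxy, -, h⟩
  obtain ⟨t, ht, N, e, he, rfl⟩ := mem_C₂ hb
  obtain ⟨t', ht', N', e', he', rfl⟩ := mem_C₂ hb'
  have b1 : ∀ j, |e j| ≤ 3 := fun j => abs_P₂ ht (he j)
  have b2 : ∀ j, |e' j| ≤ 3 := fun j => abs_P₂ ht' (he' j)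
  have b3 : ∀ j, |e j - e' j| ≤ 3 + 3 := fun j => (abs_sub _ _).trans (add_le_add (b1 j) (b2 j))
  have h1 := V_θ (x := x) (y := y) b3
  have h2 : V e - V e' - (θ x - θ y) = ((N' - N : ℤ) : ℝ) := by
    push_cast
    linarith
  rw [V_sub b1 b2, h2] at h1
  have b4 : ∀ j, |(e j - e' j) - (ext s (fun n => 3 * φ x n) j - ext s (fun n => 3 * φ y n) j)| ≤
      6 := by
    intro j
    by_cases hs : ∃ n, s n = j
    · obtain ⟨n, rfl⟩ := hs
      simp only [ext_apply s_inj]
      have h7 := (he (s n)).1 n rfl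
      have h8 := (he' (s n)).1 n rfl
      rw [abs_le]
      rcases φ_cases x n with hx | hx <;> rcases φ_cases y n with hy | hy <;> rw [hx, hy] <;>
        omega
    · push Not at hs
      simp only [ext_apply' _ hs, sub_zero]
      exact b3 j
  obtain ⟨T, hT, hTb⟩ := carry b4 h1
  refine hxy (two (Eventually.of_forall fun n => ?_))
  have h3 := hT (s n)
  have h4 := hT (q n)
  have h5 := hTb (q n + 1)
  have e1 : s n + 1 = q n := rfl
  rw [e1] at h3
  simp only [ext_apply s_inj] at h3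
  simp only [ext_apply' _ fun k => s_ne_q k n, (he (q n)).2.1 n rfl, (he' (q n)).2.1 n rfl,
    sub_zero, zero_add] at h4
  have h7 := (he (s n)).1 n rfl
  have h8 := (he' (s n)).1 n rfl
  have h9 : T (q n) = 0 := by
    rw [← h4, abs_mul] at h5
    have h10 : |(4 : ℤ)| = 4 := rfl
    rw [h10] at h5
    by_contra hne
    have := Int.one_le_abs hne
    omega
  rw [h9] at h3
  rcases φ_cases x n with hx | hx <;> rcases φ_cases y n with hy | hy <;> rw [hx, hy] at h3 ⊢ <;>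
    omega

theorem no_diff {b b' : ℝ} (hb : b ∈ B) (hb' : b' ∈ B) : b - b' ∉ A := by
  have key : ∀ {b b' : ℝ}, b' - b ∉ A → b - b' ∉ A := by
    intro b b' h h'
    apply h
    have := A_neg h'
    rwa [neg_sub] at this
  rcases hb with hb | hb | hb <;> rcases hb' with hb' | hb' | hb'
  · exact case11 hb hb'
  · exact case12 hb hb'
  · exact case13 hb hb'.2
  · exact key (case12 hb' hb)
  · exact case22 hb hb'
  · exact case23 hb hb'.2
  · exact key (case13 hb' hb.2)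
  · exact key (case23 hb' hb.2)
  · exact case33 hb.1 hb'.1

theorem exists_diff {z : ℝ} (hz : z ∉ A) : ∃ b ∈ B, ∃ b' ∈ B, b - b' = z := by
  classical
  by_cases hzG : z ∈ G {0}
  · exact ⟨f z + z, Or.inl ⟨z, hzG, hz, Or.inr rfl⟩, f z, Or.inl ⟨z, hzG, hz, Or.inl rfl⟩,
      add_sub_cancel_left _ _⟩
  obtain ⟨N, d, hd, hzd⟩ := exists_digits z
  let e₁ : ℤ → ℕ → ℤ := fun t j => if ∃ n, s n = j then d j % 2 else if ∃ n, q n = j then d j else
    if ∃ n, m n = j then t else 0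
  have he₁ : ∀ t j, e₁ t j ∈ P₁ t j := by
    intro t j
    refine ⟨?_, ?_, ?_, ?_⟩
    · intro n hn
      have h1 : e₁ t j = d j % 2 := if_pos ⟨n, hn⟩
      rw [h1]
      omega
    · intro n hn
      have h1 : e₁ t j = d j := by
        show (if ∃ n, s n = j then d j % 2 else if ∃ n, q n = j then d j else _) = _
        rw [if_neg, if_pos ⟨n, hn⟩]
        rintro ⟨k, hk⟩
        exact s_ne_q k n (hk.trans hn.symm)
      rw [h1]
      exact hd j
    · intro n hn
      show (if ∃ n, s n = j then d j % 2 else if ∃ n, q n = j then d j else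
        if ∃ n, m n = j then t else 0) = _
      rw [if_neg, if_neg, if_pos ⟨n, hn⟩]
      · rintro ⟨k, hk⟩
        exact q_ne_m k n (hk.trans hn.symm)
      · rintro ⟨k, hk⟩
        exact s_ne_m k n (hk.trans hn.symm)
    · intro h1 h2 h3
      show (if ∃ n, s n = j then d j % 2 else if ∃ n, q n = j then d j else
        if ∃ n, m n = j then t else 0) = _
      rw [if_neg, if_neg, if_neg]
      · rintro ⟨k, hk⟩
        exact h3 k hk
      · rintro ⟨k, hk⟩
        exact h2 k hk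
      · rintro ⟨k, hk⟩
        exact h1 k hk
  have he₂ : ∀ t j, e₁ t j - d j ∈ P₂ t j := by
    intro t j
    have h1 := he₁ t j
    obtain ⟨h1, h2, h3, h4⟩ := h1
    have hdj := hd j
    refine ⟨?_, ?_, ?_, ?_⟩
    · intro n hn
      have h1 : e₁ t j = d j % 2 := if_pos ⟨n, hn⟩
      rw [h1]
      omega
    · intro n hn
      have h1 : e₁ t j = d j := by
        show (if ∃ n, s n = j then d j % 2 else if ∃ n, q n = j then d j else _) = _
        rw [if_neg, if_pos ⟨n, hn⟩]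
        rintro ⟨k, hk⟩
        exact s_ne_q k n (hk.trans hn.symm)
      rw [h1, sub_self]
    · intro n hn
      rw [h3 n hn]
      constructor <;> linarith [hdj.1, hdj.2]
    · intro a b c
      rw [h4 a b c]
      constructor <;> linarith [hdj.1, hdj.2]
  have hdb : ∀ j, |d j| ≤ 3 := fun j => abs_le.2 ⟨by linarith [(hd j).1], (hd j).2⟩
  have hdiff : ∀ t, (t = 0 ∨ t = 3) →
      V (e₁ t) - (((-N : ℤ) : ℝ) + V fun j => e₁ t j - d j) = z := by
    intro t ht
    rw [V_sub (fun j => abs_P₁ ht (he₁ t j)) hdb, hzd]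
    push_cast
    ring
  have hc₁ : ∀ t, V (e₁ t) ∈ C₁ t := fun t => ⟨e₁ t, he₁ t, rfl⟩
  have hc₂ : ∀ t, (((-N : ℤ) : ℝ) + V fun j => e₁ t j - d j) ∈ C₂ t := fun t =>
    ⟨-N, _, he₂ t, rfl⟩
  have hgood : ∃ t, (t = 0 ∨ t = 3) ∧ (((-N : ℤ) : ℝ) + V fun j => e₁ t j - d j) ∉ Y := by
    by_contra hcon
    push Not at hcon
    have y0 := hcon 0 (Or.inl rfl)
    have y3 := hcon 3 (Or.inr rfl)
    have g0 := hdiff 0 (Or.inl rfl)
    have g3 := hdiff 3 (Or.inr rfl)
    generalize (((-N : ℤ) : ℝ) + V fun j => e₁ 0 j - d j) = r₀ at y0 g0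
    generalize (((-N : ℤ) : ℝ) + V fun j => e₁ 3 j - d j) = r₃ at y3 g3
    have k0 := C₁_sub (Or.inl rfl) (hc₁ 0)
    have k3 := C₁_sub (Or.inr rfl) (hc₁ 3)
    generalize V (e₁ 0) = c₀ at k0 g0
    generalize V (e₁ 3) = c₃ at k3 g3
    have n0 : r₀ ∉ G {0} := by
      intro h
      apply hzG
      rw [← g0]
      exact G_sub k0 h (by simp)
    have hr : r₀ = r₃ - (c₃ - c₀) := by linarith
    have k30 : c₃ - c₀ ∈ G {3} := G_sub k3 k0 (by simp)
    have h3 : r₀ ∈ G {-3} ∨ r₀ ∈ G {-2, -1} := by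
      rcases y3 with (h | h) | h
      · left
        rw [hr]
        exact G_sub h k30 (by simp)
      · exfalso
        apply n0
        rw [hr]
        exact G_sub h k30 (by simp)
      · right
        rw [hr]
        exact G_sub h k30 (by simp)
    have h0 : r₀ ∈ G {3} ∨ r₀ ∈ G {1, 2} := by
      rcases y0 with (h | h) | h
      · exact absurd h n0
      · exact Or.inl h
      · exact Or.inr h
    rcases h0 with h0 | h0 <;> rcases h3 with h3 | h3 <;> obtain ⟨v, hv, hv'⟩ := G_disj h0 h3 <;>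
      simp only [mem_singleton_iff, mem_insert_iff] at hv hv' <;> omega
  obtain ⟨t, ht, hY⟩ := hgood
  refine ⟨V (e₁ t), Or.inr (Or.inl ?_), _, Or.inr (Or.inr ⟨?_, hY⟩), hdiff t ht⟩
  · rcases ht with rfl | rfl
    · exact Or.inl (hc₁ 0)
    · exact Or.inr (hc₁ 3)
  · rcases ht with rfl | rfl
    · exact Or.inl (hc₂ 0)
    · exact Or.inr (hc₂ 3)

theorem disjoint_iff {x y : ℝ} :
    Disjoint ((fun b => b + x) '' B) ((fun b => b + y) '' B) ↔ x - y ∈ A := by
  constructor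
  · intro h
    by_contra hA
    obtain ⟨b, hb, b', hb', he⟩ := exists_diff hA
    have h1 : b' + x ∈ (fun b => b + x) '' B := ⟨b', hb', rfl⟩
    have h2 : b' + x ∈ (fun b => b + y) '' B := ⟨b, hb, by
      show b + y = b' + x
      linarith⟩
    exact Set.disjoint_left.1 h h1 h2
  · intro h
    rw [Set.disjoint_left]
    rintro _ ⟨b, hb, rfl⟩ ⟨b', hb', he⟩
    have he : b' + y = b + x := he
    refine no_diff hb' hb ?_
    have h1 : b' - b = x - y := by linarith
    rwa [h1]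

/-! ### Cliques -/

theorem R_of_diff {x y : K} (hxy : x ≠ y) (h : θ x - θ y ∈ A) : R x y := by
  obtain ⟨a, b, hab, hR, he⟩ := h
  have h1 : θ x - θ y - (θ y - θ y) = θ a - θ b := by linarith
  have h2 : ∀ᶠ n in atTop, φ x n - φ y n = φ a n - φ b n :=
    (share_of h1).mono fun n hn => by linarith
  obtain ⟨rfl, rfl⟩ := pair_eq hxy h2
  exact hR

theorem injective_θ : Function.Injective θ := by
  intro x y h
  have h1 : θ x - θ y - (θ y - θ y) = θ y - θ y := by linarith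
  refine two ?_
  filter_upwards [share_of h1] with n hn
  linarith

theorem card_le {X : Set ℝ} (hX : ∀ x ∈ X, ∀ y ∈ X, x ≠ y → x - y ∈ A) : #X ≤ ℵ₁ := by
  rcases X.eq_empty_or_nonempty with rfl | ⟨h₀, hh₀⟩
  · simp
  have hex : ∀ h : ℝ, ∃ p : K × K, h ∈ X → h ≠ h₀ → p.1 ≠ p.2 ∧ h - h₀ = θ p.1 - θ p.2 := by
    intro h
    by_cases hh : h ∈ X ∧ h ≠ h₀
    · obtain ⟨x, y, hxy, -, he⟩ := hX h hh.1 h₀ hh₀ hh.2
      exact ⟨(x, y), fun _ _ => ⟨hxy, he⟩⟩
    · exact ⟨(fun _ => true, fun _ => true), fun h1 h2 => absurd ⟨h1, h2⟩ hh⟩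
  choose p hp using hex
  have hshare : ∀ h ∈ X \ {h₀}, ∀ h' ∈ X \ {h₀}, h ≠ h' → (p h).1 = (p h').1 ∨
      (p h).2 = (p h').2 := by
    rintro h ⟨hh, hh'⟩ k ⟨hk, hk'⟩ hne
    obtain ⟨a, b, hab, -, he⟩ := hX h hh k hk hne
    obtain ⟨h1, h2⟩ := hp h hh hh'
    obtain ⟨h3, h4⟩ := hp k hk hk'
    refine share h1 h3 hab (share_of ?_)
    rw [← h2, ← h4, ← he]
    ring
  have hinj : ∀ h ∈ X \ {h₀}, ∀ h' ∈ X \ {h₀}, p h = p h' → h = h' := by
    rintro h ⟨hh, hh'⟩ k ⟨hk, hk'⟩ he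
    have h1 := (hp h hh hh').2
    have h2 := (hp k hk hk').2
    rw [he] at h1
    linarith
  have hmain : #(X \ {h₀} : Set ℝ) ≤ ℵ₁ := by
    by_cases hc : ∃ h ∈ X \ {h₀}, ∃ h' ∈ X \ {h₀}, h ≠ h' ∧ (p h).1 = (p h').1
    · obtain ⟨h₁, hh₁, h₂, hh₂, hne, h12⟩ := hc
      have hv : (p h₁).2 ≠ (p h₂).2 := fun h => hne (hinj h₁ hh₁ h₂ hh₂ (Prod.ext h12 h))
      have hall : ∀ h ∈ X \ {h₀}, (p h).1 = (p h₁).1 := by
        intro h hh
        by_cases e1 : h = h₁
        · rw [e1]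
        by_cases e2 : h = h₂
        · rw [e2, h12]
        rcases hshare h hh h₁ hh₁ e1 with h3 | h3
        · exact h3
        rcases hshare h hh h₂ hh₂ e2 with h4 | h4
        · rw [h4, h12]
        exact absurd (h3.symm.trans h4) hv
      have hin : Set.InjOn (fun h => (p h).2) (X \ {h₀}) := fun h hh h' hh' he =>
        hinj h hh h' hh' (Prod.ext ((hall h hh).trans (hall h' hh').symm) he)
      rw [← mk_image_eq_of_injOn _ _ hin]
      refine clique_le ?_
      rintro _ ⟨h, hh, rfl⟩ _ ⟨h', hh', rfl⟩ hne'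
      have hne2 : h ≠ h' := fun e => hne' (by rw [e])
      refine R_symm (R_of_diff (fun e => hne' e.symm) ?_)
      have h1 := (hp h hh.1 hh.2).2
      have h2 := (hp h' hh'.1 hh'.2).2
      have h3 : θ (p h').2 - θ (p h).2 = h - h' := by
        rw [hall h hh] at h1
        rw [hall h' hh'] at h2
        linarith
      show θ (p h').2 - θ (p h).2 ∈ A
      rw [h3]
      exact hX h hh.1 h' hh'.1 hne2
    · push Not at hc
      have hall : ∀ h ∈ X \ {h₀}, ∀ h' ∈ X \ {h₀}, (p h).2 = (p h').2 := by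
        intro h hh h' hh'
        by_cases e1 : h = h'
        · rw [e1]
        · exact (hshare h hh h' hh' e1).resolve_left (hc h hh h' hh' e1)
      have hin : Set.InjOn (fun h => (p h).1) (X \ {h₀}) := fun h hh h' hh' he =>
        hinj h hh h' hh' (Prod.ext he (hall h hh h' hh'))
      rw [← mk_image_eq_of_injOn _ _ hin]
      refine clique_le ?_
      rintro _ ⟨h, hh, rfl⟩ _ ⟨h', hh', rfl⟩ hne'
      have hne2 : h ≠ h' := fun e => hne' (by rw [e])
      refine R_of_diff hne' ?_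
      have h1 := (hp h hh.1 hh.2).2
      have h2 := (hp h' hh'.1 hh'.2).2
      have h3 : θ (p h).1 - θ (p h').1 = h - h' := by
        rw [hall h hh h' hh'] at h1
        linarith
      show θ (p h).1 - θ (p h').1 ∈ A
      rw [h3]
      exact hX h hh.1 h' hh'.1 hne2
  have h1 : X = insert h₀ (X \ {h₀}) := by
    rw [insert_sdiff_singleton, insert_eq_of_mem hh₀]
  rw [h1]
  refine (mk_insert_le).trans ?_
  refine (add_le_add hmain (one_le_aleph0.trans (aleph0_le_aleph 1))).trans ?_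
  rw [add_eq_self (aleph0_le_aleph 1)]

/-- `B` has `κ` many pairwise disjoint translates. -/
def HasDisjointTranslates (B : Set ℝ) (κ : Cardinal.{0}) : Prop :=
  ∃ X : Set ℝ, #X = κ ∧ ∀ x ∈ X, ∀ y ∈ X, x ≠ y →
    ((fun b => b + x) '' B) ∩ ((fun b => b + y) '' B) = ∅

/-- There is a Borel set `B` of reals which has exactly `ℵ₁` many pairwise disjoint translates: it
has `ℵ₁` many of them, and if it has `κ` many of them then `κ ≤ ℵ₁`. Therefore, if the continuum
hypothesis fails, then `B` has uncountably many but not `𝔠` many pairwise disjoint translates. -/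
theorem result : ∃ B : Set ℝ, MeasurableSet[borel ℝ] B ∧ HasDisjointTranslates B ℵ₁ ∧
    (∀ κ : Cardinal.{0}, HasDisjointTranslates B κ → κ ≤ ℵ₁) ∧
    (𝔠 ≠ (ℵ₁ : Cardinal.{0}) → ¬ HasDisjointTranslates B 𝔠) := by
  have hle : ∀ κ : Cardinal.{0}, HasDisjointTranslates B κ → κ ≤ ℵ₁ := by
    rintro κ ⟨X, rfl, hX⟩
    refine card_le fun x hx y hy hne => ?_
    rw [← disjoint_iff, Set.disjoint_iff_inter_eq_empty]
    exact hX x hx y hy hne
  refine ⟨B, ?_, ?_, hle, fun hc h => hc (le_antisymm (hle _ h) ?_)⟩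
  · have h1 := measurable_B
    rwa [BorelSpace.measurable_eq (α := ℝ)] at h1
  · obtain ⟨H, hH1, hH2⟩ := exists_clique
    have hcard : ℵ₁ ≤ #H := by
      rw [← succ_aleph0, Order.succ_le_iff, ← not_le, mk_le_aleph0_iff]
      exact fun h => hH1 h.to_set
    obtain ⟨S, hS, hS1⟩ := Cardinal.le_mk_iff_exists_subset.1 hcard
    refine ⟨θ '' S, by rw [mk_image_eq injective_θ, hS1], ?_⟩
    rintro _ ⟨x, hx, rfl⟩ _ ⟨y, hy, rfl⟩ hne
    rw [← Set.disjoint_iff_inter_eq_empty, disjoint_iff]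
    have hxy : x ≠ y := fun h => hne (by rw [h])
    exact ⟨x, y, hxy, hH2 (hS hx) (hS hy) hxy, rfl⟩
  · rw [← succ_aleph0, Order.succ_le_iff]
    exact aleph0_lt_continuum

end Pool.Agent.Results.MP_6a38e0_lc.DisjointTranslates
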